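import Pool.Agent.MP_1e9e92_co.Mg.Count

namespace Pool.Agent.Results.MP_1e9e92_co.BetterTolerance

/-- In every dimension `d` there is a partition of `ℝ ^ d` (sup metric) into sets of diameter at
most `D` such that every closed ball of radius `D / (2 ⌊d / 2⌋ + 2)` meets at most `d + 1`
members. -/
theorem result (d : ℕ) (D : ℝ) (hD : 0 < D) :
    ∃ P : Set (Set (Fin d → ℝ)), Setoid.IsPartition P ∧
      (∀ X ∈ P, ∀ x ∈ X, ∀ y ∈ X, dist x y ≤ D) ∧
      ∀ p : Fin d → ℝ, {X ∈ P | (X ∩ Metric.closedBall p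
        (D / (2 * ((d / 2 : ℕ) : ℝ) + 2))).Nonempty}.encard ≤ (d : ℕ∞) + 1 :=
  Pool.Agent.MP_1e9e92_co.secluded d D hD

end Pool.Agent.Results.MP_1e9e92_co.BetterTolerance
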