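import Pool.Agent.MP_1e9e92_co.Boxes

namespace Pool.Agent.Results.MP_1e9e92_co.BoxPartitions

/-- A partition of `ℝ ^ d` (sup metric) into axis-parallel boxes of arbitrary sizes (each member
lies between an open box and the closed box with the same corners) of diameter at most `D`, such
that every closed ball of radius `ε` meets at most `d + 1` members, has `ε ≤ D / (2 d)`. -/
theorem result (d : ℕ) (hd : 0 < d) (D ε : ℝ) (hε : 0 < ε) (P : Set (Set (Fin d → ℝ)))
    (hP : Setoid.IsPartition P)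
    (hB : ∀ X ∈ P, ∃ a b : Fin d → ℝ,
      (Set.univ.pi fun j => Set.Ioo (a j) (b j)) ⊆ X ∧ X ⊆ Set.Icc a b)
    (hD : ∀ X ∈ P, ∀ x ∈ X, ∀ y ∈ X, dist x y ≤ D)
    (hS : ∀ p : Fin d → ℝ,
      {X ∈ P | (X ∩ Metric.closedBall p ε).Nonempty}.encard ≤ (d : ℕ∞) + 1) :
    ε ≤ D / (2 * d) :=
  Pool.Agent.MP_1e9e92_co.Bx.boxes hd hε hP hB hD hS

end Pool.Agent.Results.MP_1e9e92_co.BoxPartitions
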